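import Pool.Agent.Helper30.DL.GoalsD

/-!
# Packet DL-BEB (MP_b4564f_an): dependence on `e`
-/

set_option autoImplicit false

namespace Pool.Agent.Helper5.DL

open Pool.Agent.Helper30 Pool.Agent.Helper30.DL

/-- `(1 - v/2) e^v ≤ 1 + v/2` for `0 ≤ v ≤ 1` -/
theorem pade {v : ℝ} (h0 : 0 ≤ v) (h1 : v ≤ 1) : (1 - v / 2) * Real.exp v ≤ 1 + v / 2 := by
  have hpos : 0 < 1 - v / 2 := by linarith
  have hx : 0 ≤ v / (1 - v / 2) := by positivity
  have h2 := Real.le_log_one_add_of_nonneg hx
  have h3 : 2 * (v / (1 - v / 2)) / (v / (1 - v / 2) + 2) = v := by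
    have h31 : v / (1 - v / 2) + 2 = 2 / (1 - v / 2) := by
      rw [eq_div_iff hpos.ne', add_mul, div_mul_cancel₀ _ hpos.ne']
      ring
    rw [h31, ← mul_div_assoc, div_div_div_cancel_right₀ hpos.ne']
    ring
  have h4 : 1 + v / (1 - v / 2) = (1 + v / 2) / (1 - v / 2) := by
    rw [eq_div_iff hpos.ne', add_mul, div_mul_cancel₀ _ hpos.ne']
    ring
  rw [h3, h4] at h2
  have h5 : 0 < (1 + v / 2) / (1 - v / 2) := by positivity
  have h6 := (Real.le_log_iff_exp_le h5).1 h2
  rw [le_div_iff₀ hpos] at h6
  linarith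

theorem log_ge {v : ℝ} (h0 : 0 ≤ v) : v - v ^ 2 / 2 ≤ Real.log (1 + v) := by
  have h2 := Real.le_log_one_add_of_nonneg h0
  refine le_trans ?_ h2
  rw [le_div_iff₀ (by linarith)]
  nlinarith [pow_nonneg h0 3]

/-- `log z ≤ (z - 1/z)/2` for `z ≥ 1` -/
theorem log_le_half {z : ℝ} (h1 : 1 ≤ z) : Real.log z ≤ (z - z⁻¹) / 2 := by
  have hz : 0 < z := by linarith
  have h2 : 0 ≤ Real.log z := Real.log_nonneg h1
  have h3 := Real.self_le_sinh_iff.2 h2
  rw [Real.sinh_eq, Real.exp_log hz, Real.exp_neg, Real.exp_log hz] at h3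
  exact h3

theorem beb : BebStmt := by
  intro t e em a M cq ht ht14 he heem hem ha haM hM hM34 hcq hcqM
  have hem0 : 0 < em := by linarith
  set p := pp t with hp
  have hpi : Real.pi / 14 < 1 / 4 := by
    have := Real.pi_lt_d2
    linarith
  have hp2t : p ≤ 2 * t := by
    have := Real.sin_le ht.le
    rw [hp]; unfold pp; linarith
  have hppos : 0 < p := by
    rw [hp]; unfold pp
    have : 0 < Real.sin t := Real.sin_pos_of_pos_of_lt_pi ht (by linarith [Real.pi_gt_three])
    linarith
  have hp12 : p ≤ 1 / 2 := by linarith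
  have hth : th t = 2 * t := rfl
  have hthpos : 0 < th t := by rw [hth]; linarith
  set u := Real.exp a - 1 with hu
  have hu1 : -1 < u := by
    have := Real.exp_pos a
    linarith
  have hau : a ≤ u := by
    have := Real.add_one_le_exp a
    linarith
  have hX : ∀ q : ℝ, PL.FF q a = Real.log (1 + q * u) := by
    intro q
    unfold PL.FF
    congr 1
    rw [hu]; ring
  have hxpos : ∀ q : ℝ, 0 ≤ q → q ≤ p → 0 < 1 + q * u := by
    intro q h0 h1
    nlinarith
  have hx : 0 < 1 + p * u := hxpos p hppos.le le_rfl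
  have hyq : ∀ ε : ℝ, 0 < ε → ε ≤ em → 0 < 1 + (1 - ε) * p * u := by
    intro ε h0 h1
    apply hxpos
    · have : 0 ≤ 1 - ε := by linarith
      positivity
    · nlinarith
  have hgf : ∀ ε : ℝ, gf t ε a = (Real.log (1 + (1 - ε) * p * u) - p * a) / th t := by
    intro ε
    unfold gf
    rw [← hp, hX]
  have hgf0 : gf t 0 a = (Real.log (1 + p * u) - p * a) / th t := by
    rw [hgf]
    norm_num
  have hbf : ∀ ε : ℝ, 0 < ε → th t * ε * bf t ε a
      = Real.log (1 + p * u) - Real.log (1 + (1 - ε) * p * u) := by
    intro ε h0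
    unfold bf
    rw [hgf0, hgf]
    field_simp
    ring
  -- monotonicity in e
  have hmono : bf t e a ≤ bf t em a := by
    have hc := (strictConcaveOn_log_Ioi.concaveOn).2 (Set.mem_Ioi.2 hx)
      (Set.mem_Ioi.2 (hyq em hem0 le_rfl))
      (show (0 : ℝ) ≤ 1 - e / em by rw [sub_nonneg, div_le_one hem0]; exact heem)
      (show (0 : ℝ) ≤ e / em by positivity) (by ring)
    simp only [smul_eq_mul] at hc
    have hcomb : (1 - e / em) * (1 + p * u) + e / em * (1 + (1 - em) * p * u)
        = 1 + (1 - e) * p * u := by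
      field_simp
      ring
    rw [hcomb] at hc
    have h1 := hbf e he
    have h2 := hbf em hem0
    have h3 : th t * e * bf t e a ≤ th t * e * bf t em a := by
      have h4 : th t * e * bf t em a = e / em * (th t * em * bf t em a) := by
        field_simp
      rw [h4, h1, h2]
      have h5 : e / em * (Real.log (1 + p * u) - Real.log (1 + (1 - em) * p * u))
          = e / em * Real.log (1 + p * u) - e / em * Real.log (1 + (1 - em) * p * u) := by ring
      rw [h5]
      linarith
    exact le_of_mul_le_mul_left h3 (by positivity)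
  -- lower bound of `bf`
  have hlow : ∀ ε : ℝ, 0 < ε → ε ≤ em → p * (u / (1 + p * u)) ≤ th t * bf t ε a := by
    intro ε h0 h1
    have hy := hyq ε h0 h1
    have h2 : Real.log ((1 + (1 - ε) * p * u) / (1 + p * u)) ≤
        (1 + (1 - ε) * p * u) / (1 + p * u) - 1 :=
      Real.log_le_sub_one_of_pos (by positivity)
    rw [Real.log_div hy.ne' hx.ne'] at h2
    have h3 := hbf ε h0
    have h4 : (1 + (1 - ε) * p * u) / (1 + p * u) - 1 = - (ε * (p * (u / (1 + p * u)))) := by
      field_simp
      ring
    rw [h4] at h2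
    have h5 : ε * (p * (u / (1 + p * u))) ≤ ε * (th t * bf t ε a) := by
      have : ε * (th t * bf t ε a) = th t * ε * bf t ε a := by ring
      rw [this, h3]
      linarith
    exact le_of_mul_le_mul_left h5 h0
  have hg0 : 0 ≤ gf t 0 a := by
    rw [hgf0]
    apply div_nonneg _ hthpos.le
    have hc := convexOn_exp.2 (Set.mem_univ 0) (Set.mem_univ a)
      (show (0 : ℝ) ≤ 1 - p by linarith) hppos.le (by ring)
    simp only [smul_eq_mul, mul_zero, zero_add, Real.exp_zero, mul_one] at hc
    have h1 : 1 + p * u = 1 - p + p * Real.exp a := by rw [hu]; ring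
    have h2 : p * a ≤ Real.log (1 + p * u) := by
      rw [Real.le_log_iff_exp_le hx, h1]
      exact hc
    linarith
  have hdiff : gf t 0 a - em * bf t e a - gf t em a = em * (bf t em a - bf t e a) := by
    have : em * bf t em a = gf t 0 a - gf t em a := by
      unfold bf
      field_simp
    rw [mul_sub, this]
    ring
  refine ⟨?_, ?_, hg0, ?_, ?_⟩
  · intro ha0
    refine ⟨?_, hmono⟩
    have hu0 : 0 ≤ u := by linarith
    have h1 := hlow e he heem
    have h2 : 0 ≤ p * (u / (1 + p * u)) := by positivity
    have h3 : 0 ≤ th t * bf t e a := h2.trans h1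
    exact nonneg_of_mul_nonneg_right h3 hthpos
  · intro ha0
    have hu0 : u ≤ 0 := by
      have := Real.exp_le_one_iff.2 ha0
      linarith
    constructor
    · have h1 := hlow e he heem
      have hpd := pade (v := -a) (by linarith) (by linarith)
      have hprod : Real.exp (-a) * Real.exp a = 1 := by rw [← Real.exp_add]; simp
      have hea := Real.exp_pos a
      -- `e^a (1 - a/2) ≥ 1 + a/2`
      have h2 : 1 + a / 2 ≤ (1 - a / 2) * Real.exp a := by
        have h3 := mul_le_mul_of_nonneg_right hpd hea.le
        have h4 : (1 - -a / 2) * Real.exp (-a) * Real.exp a = (1 + a / 2) := by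
          rw [mul_assoc, hprod]; ring
        rw [h4] at h3
        have h5 : (1 + -a / 2) * Real.exp a = (1 - a / 2) * Real.exp a := by ring
        rwa [h5] at h3
      have h6 : a ≤ u / (1 + p * u) := by
        rw [le_div_iff₀ hx]
        have h7 : p * (a * u) ≤ 1 / 2 * (a * u) :=
          mul_le_mul_of_nonneg_right hp12 (mul_nonneg_of_nonpos_of_nonpos ha0 hu0)
        have h8 : Real.exp a = u + 1 := by rw [hu]; ring
        rw [h8] at h2
        nlinarith
      have h9 : u / (1 + p * u) ≤ 0 := div_nonpos_of_nonpos_of_nonneg hu0 hx.le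
      have h10 : th t * a ≤ th t * bf t e a := by
        refine le_trans ?_ h1
        have h11 : th t * (u / (1 + p * u)) ≤ p * (u / (1 + p * u)) :=
          mul_le_mul_of_nonpos_right (by rw [hth]; exact hp2t) h9
        exact (mul_le_mul_of_nonneg_left h6 hthpos.le).trans h11
      exact le_of_mul_le_mul_left h10 hthpos
    · have h1 := hbf e he
      have hy := hyq e he heem
      have h2 : Real.log (1 + p * u) ≤ Real.log (1 + (1 - e) * p * u) := by
        apply Real.log_le_log hx
        nlinarith [mul_nonneg he.le hppos.le, mul_nonneg (mul_nonneg he.le hppos.le) (neg_nonneg.2 hu0)]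
      have h3 : th t * e * bf t e a ≤ 0 := by rw [h1]; linarith
      by_contra hcon
      push Not at hcon
      have : 0 < th t * e * bf t e a := by positivity
      linarith
  · rw [hdiff]
    exact mul_nonneg hem0.le (sub_nonneg.2 hmono)
  · rw [hdiff]
    have h1 := hlow e he heem
    have h2 := hbf em hem0
    have hy := hyq em hem0 le_rfl
    -- the key inequality
    have hkey : th t * (em * (bf t em a - bf t e a)) ≤ em ^ 2 * p ^ 2 / 2 * (cq * a ^ 2) := by
      have h3 : th t * (em * (bf t em a - bf t e a))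
          ≤ Real.log (1 + p * u) - Real.log (1 + (1 - em) * p * u) - em * (p * (u / (1 + p * u))) := by
        rw [← h2]
        have := mul_le_mul_of_nonneg_left h1 hem0.le
        linarith
      refine h3.trans ?_
      rcases le_total 0 a with ha0 | ha0
      · have hu0 : 0 ≤ u := by linarith
        have hz : 1 ≤ (1 + p * u) / (1 + (1 - em) * p * u) := by
          rw [one_le_div hy]
          nlinarith [mul_nonneg (mul_nonneg hem0.le hppos.le) hu0]
        have h4 := log_le_half hz
        rw [Real.log_div hx.ne' hy.ne', inv_div] at h4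
        have h5 : ((1 + p * u) / (1 + (1 - em) * p * u) - (1 + (1 - em) * p * u) / (1 + p * u)) / 2
            - em * (p * (u / (1 + p * u)))
            = em ^ 2 * p ^ 2 * u ^ 2 / (2 * ((1 + p * u) * (1 + (1 - em) * p * u))) := by
          have e1 : em * (p * (u / (1 + p * u))) = (em * p * u) / (1 + p * u) := by ring
          have e2 : em ^ 2 * p ^ 2 * u ^ 2 = (em * p * u) ^ 2 := by ring
          have e3 : em * p * u = (1 + p * u) - (1 + (1 - em) * p * u) := by ring
          rw [e1, e2, e3]
          have hy' : 1 + (1 - em) * p * u ≠ 0 := hy.ne'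
          have hx' : 1 + p * u ≠ 0 := hx.ne'
          generalize 1 + (1 - em) * p * u = Y at hy' ⊢
          generalize 1 + p * u = X at hx' ⊢
          field_simp
          ring
        have hx1 : 1 ≤ 1 + p * u := by nlinarith [mul_nonneg hppos.le hu0]
        have hy1 : 1 ≤ 1 + (1 - em) * p * u := by
          have : 0 ≤ (1 - em) * p * u := by
            have : 0 ≤ 1 - em := by linarith
            positivity
          linarith
        have h6 : em ^ 2 * p ^ 2 * u ^ 2 / (2 * ((1 + p * u) * (1 + (1 - em) * p * u)))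
            ≤ em ^ 2 * p ^ 2 * u ^ 2 / 2 := by
          apply div_le_div_of_nonneg_left (by positivity) (by norm_num)
          nlinarith [mul_le_mul hx1 hy1 zero_le_one (by linarith)]
        have hu2 : u ^ 2 ≤ cq * a ^ 2 := by
          have hc := convexOn_exp.2 (Set.mem_univ 0) (Set.mem_univ M)
            (show (0 : ℝ) ≤ 1 - a / M by rw [sub_nonneg, div_le_one hM]; exact haM)
            (show (0 : ℝ) ≤ a / M by positivity) (by ring)
          simp only [smul_eq_mul, mul_zero, zero_add, Real.exp_zero, mul_one] at hc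
          have haMM : a / M * M = a := by field_simp
          rw [haMM] at hc
          have h7 : u ≤ a / M * (Real.exp M - 1) := by rw [hu]; linarith
          calc u ^ 2 ≤ (a / M * (Real.exp M - 1)) ^ 2 := pow_le_pow_left₀ hu0 h7 2
            _ = a ^ 2 / M ^ 2 * (Real.exp M - 1) ^ 2 := by rw [mul_pow, div_pow]
            _ ≤ a ^ 2 / M ^ 2 * (cq * M ^ 2) := mul_le_mul_of_nonneg_left hcqM (by positivity)
            _ = cq * a ^ 2 := by field_simp
        calc Real.log (1 + p * u) - Real.log (1 + (1 - em) * p * u) - em * (p * (u / (1 + p * u)))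
            ≤ em ^ 2 * p ^ 2 * u ^ 2 / 2 := by linarith
          _ = em ^ 2 * p ^ 2 / 2 * u ^ 2 := by ring
          _ ≤ em ^ 2 * p ^ 2 / 2 * (cq * a ^ 2) := mul_le_mul_of_nonneg_left hu2 (by positivity)
      · have hu0 : u ≤ 0 := by
          have := Real.exp_le_one_iff.2 ha0
          linarith
        -- v = -em p u/(1+pu) ≥ 0
        have hv : 0 ≤ -(em * (p * (u / (1 + p * u)))) := by
          have h9 : u / (1 + p * u) ≤ 0 := div_nonpos_of_nonpos_of_nonneg hu0 hx.le
          have := mul_nonpos_of_nonneg_of_nonpos (mul_nonneg hem0.le hppos.le) h9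
          linarith [mul_assoc em p (u / (1 + p * u))]
        have h4 := log_ge hv
        have h5 : 1 + -(em * (p * (u / (1 + p * u)))) = (1 + (1 - em) * p * u) / (1 + p * u) := by
          field_simp
          ring
        rw [h5, Real.log_div hy.ne' hx.ne'] at h4
        -- |h(p)| ≤ |a|
        have hpd := pade (v := -a) (by linarith) (by linarith)
        have hprod : Real.exp (-a) * Real.exp a = 1 := by rw [← Real.exp_add]; simp
        have hea := Real.exp_pos a
        have h22 : 1 + a / 2 ≤ (1 - a / 2) * Real.exp a := by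
          have h3 := mul_le_mul_of_nonneg_right hpd hea.le
          have h4 : (1 - -a / 2) * Real.exp (-a) * Real.exp a = (1 + a / 2) := by
            rw [mul_assoc, hprod]; ring
          rw [h4] at h3
          have h5 : (1 + -a / 2) * Real.exp a = (1 - a / 2) * Real.exp a := by ring
          rwa [h5] at h3
        have h6 : a ≤ u / (1 + p * u) := by
          rw [le_div_iff₀ hx]
          have h7 : p * (a * u) ≤ 1 / 2 * (a * u) :=
            mul_le_mul_of_nonneg_right hp12 (mul_nonneg_of_nonpos_of_nonpos ha0 hu0)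
          have h8 : Real.exp a = u + 1 := by rw [hu]; ring
          rw [h8] at h22
          nlinarith
        have h9 : u / (1 + p * u) ≤ 0 := div_nonpos_of_nonpos_of_nonneg hu0 hx.le
        have h10 : (u / (1 + p * u)) ^ 2 ≤ a ^ 2 := by
          rw [sq_le_sq, abs_of_nonpos h9, abs_of_nonpos ha0]
          linarith
        have h11 : a ^ 2 ≤ cq * a ^ 2 := by nlinarith [sq_nonneg a]
        calc Real.log (1 + p * u) - Real.log (1 + (1 - em) * p * u) - em * (p * (u / (1 + p * u)))
            ≤ (em * (p * (u / (1 + p * u)))) ^ 2 / 2 := by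
              have : (-(em * (p * (u / (1 + p * u))))) ^ 2 = (em * (p * (u / (1 + p * u)))) ^ 2 := by
                ring
              rw [this] at h4
              linarith
          _ = em ^ 2 * p ^ 2 / 2 * (u / (1 + p * u)) ^ 2 := by ring
          _ ≤ em ^ 2 * p ^ 2 / 2 * (cq * a ^ 2) :=
              mul_le_mul_of_nonneg_left (h10.trans h11) (by positivity)
    have h12 : em ^ 2 * p ^ 2 / 2 * (cq * a ^ 2) ≤ th t * (em ^ 2 * t * cq * a ^ 2) := by
      have h13 : p ^ 2 ≤ (2 * t) ^ 2 := pow_le_pow_left₀ hppos.le hp2t 2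
      have h14 : 0 ≤ em ^ 2 / 2 * (cq * a ^ 2) := by
        have : 0 ≤ cq := by linarith
        positivity
      have h15 := mul_le_mul_of_nonneg_right h13 h14
      rw [hth]
      calc em ^ 2 * p ^ 2 / 2 * (cq * a ^ 2) = p ^ 2 * (em ^ 2 / 2 * (cq * a ^ 2)) := by ring
        _ ≤ (2 * t) ^ 2 * (em ^ 2 / 2 * (cq * a ^ 2)) := h15
        _ = 2 * t * (em ^ 2 * t * cq * a ^ 2) := by ring
    exact le_of_mul_le_mul_left (hkey.trans h12) hthpos

end Pool.Agent.Helper5.DL
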